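import Pool.Agent.WIR.StmtsE

/-! # WIR: the projections `pj` (fibres and composition). -/

namespace Pool.Agent.WIR.H86

open scoped BigOperators

theorem pj_eq {m n : ℕ} (h : m ≤ n) (x : ZMod (3 ^ n)) :
    pj m n x = ZMod.castHom (pow_dvd_pow 3 h) (ZMod (3 ^ m)) x := by
  unfold pj
  rw [ZMod.castHom_apply, ZMod.natCast_val]

theorem pj_self (n : ℕ) (x : ZMod (3 ^ n)) : pj n n x = x := by
  unfold pj
  rw [ZMod.natCast_val, ZMod.cast_id', id]

theorem pj_pj {a b c : ℕ} (hab : a ≤ b) (x : ZMod (3 ^ c)) :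
    pj a b (pj b c x) = pj a c x := by
  unfold pj
  rw [ZMod.val_natCast]
  have hdvd : 3 ^ a ∣ 3 ^ b := pow_dvd_pow 3 hab
  apply (ZMod.natCast_eq_natCast_iff _ _ _).mpr
  exact (Nat.mod_modEq _ _).of_dvd hdvd

open Classical in
theorem pj_fiber {m n : ℕ} (h : m ≤ n) (z : ZMod (3 ^ m)) :
    (Finset.univ.filter (fun x : ZMod (3 ^ n) => pj m n x = z)).card = 3 ^ (n - m) := by
  set f : ZMod (3 ^ n) →+ ZMod (3 ^ m) :=
    (ZMod.castHom (pow_dvd_pow 3 h) (ZMod (3 ^ m))).toAddMonoidHom with hf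
  have hfx : ∀ x, pj m n x = f x := fun x => pj_eq h x
  have hsurj : Function.Surjective f := ZMod.castHom_surjective (pow_dvd_pow 3 h)
  have hcard : ∀ w : ZMod (3 ^ m), (Finset.univ.filter (fun x : ZMod (3 ^ n) => f x = w)).card
      = (Finset.univ.filter (fun x : ZMod (3 ^ n) => f x = z)).card := by
    intro w
    exact AddMonoidHom.card_fiber_eq_of_mem_range f (hsurj w) (hsurj z)
  have htot : (Finset.univ : Finset (ZMod (3 ^ n))).card
      = ∑ w : ZMod (3 ^ m), (Finset.univ.filter (fun x : ZMod (3 ^ n) => f x = w)).card :=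
    Finset.card_eq_sum_card_fiberwise (fun x _ => Finset.mem_coe.mpr (Finset.mem_univ (f x)))
  rw [Finset.sum_congr rfl (fun w _ => hcard w), Finset.sum_const, Finset.card_univ,
    Finset.card_univ, ZMod.card, ZMod.card, smul_eq_mul] at htot
  simp only [hfx]
  have h3 : 3 ^ n = 3 ^ m * 3 ^ (n - m) := by rw [← pow_add, Nat.add_sub_cancel' h]
  have h4 := h3.symm.trans htot
  exact (Nat.eq_of_mul_eq_mul_left (by positivity) h4).symm

theorem pj_sum {m n : ℕ} (h : m ≤ n) (g : ZMod (3 ^ m) → ℝ) :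
    ∑ x : ZMod (3 ^ n), g (pj m n x) = 3 ^ (n - m) * ∑ z : ZMod (3 ^ m), g z := by
  classical
  rw [← Finset.sum_fiberwise_of_maps_to (s := Finset.univ) (t := Finset.univ)
    (g := fun x : ZMod (3 ^ n) => pj m n x) (fun x _ => Finset.mem_univ _), Finset.mul_sum]
  refine Finset.sum_congr rfl fun z _ => ?_
  have : ∀ x ∈ Finset.univ.filter (fun x : ZMod (3 ^ n) => pj m n x = z), g (pj m n x) = g z := by
    intro x hx
    rw [(Finset.mem_filter.mp hx).2]
  rw [Finset.sum_congr rfl this, Finset.sum_const, pj_fiber h z, nsmul_eq_mul]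
  push_cast
  ring

end Pool.Agent.WIR.H86
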