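import Pool.Agent.Helper86_WIR.Pj

/-! # WIR, row TEL (telescoping of the high frequency bound). -/

namespace Pool.Agent.WIR.H86

open scoped BigOperators

theorem tel (hfr : HfrStmt) (_prj : PrjStmt) : TelStmt := by
  intro A
  obtain ⟨C, hC1, hC⟩ := hfr (A + 2)
  refine ⟨2 * C, by linarith, ?_⟩
  intro m l M hml hM
  have h2M : (0 : ℝ) < 2 ^ M := by positivity
  have h3l : (0 : ℝ) < 3 ^ l := by positivity
  -- one step
  have step : ∀ N : ℕ, N + 1 ≤ l →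
      ∑ x : ZMod (3 ^ l), |3 ^ (N + 1) / 3 ^ l * (cnt M {l} (N + 1) (pj (N + 1) l x) : ℝ)
        - 3 ^ N / 3 ^ l * (cnt M {l} N (pj N l x) : ℝ)| ≤ C / ((N : ℝ) + 1) ^ (A + 2) * 2 ^ M := by
    intro N hN
    have h1 := hC N M {l} (by omega) (by
      intro k hk
      rw [Set.mem_singleton_iff] at hk
      omega)
    obtain ⟨g, hg⟩ : ∃ g : ZMod (3 ^ (N + 1)) → ℝ, ∀ y, g y = 3 ^ (N + 1) / 3 ^ l *
            |(cnt M {l} (N + 1) y : ℝ) - (cnt M {l} N (pj N (N + 1) y) : ℝ) / 3| :=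
      ⟨_, fun _ => rfl⟩
    have e1 : ∀ x : ZMod (3 ^ l),
        |3 ^ (N + 1) / 3 ^ l * (cnt M {l} (N + 1) (pj (N + 1) l x) : ℝ)
          - 3 ^ N / 3 ^ l * (cnt M {l} N (pj N l x) : ℝ)|
        = g (pj (N + 1) l x) := by
      intro x
      have hpos : (0 : ℝ) < 3 ^ (N + 1) / 3 ^ l := by positivity
      rw [hg, pj_pj (Nat.le_succ N) x]
      rw [← abs_of_pos hpos, ← abs_mul, abs_of_pos hpos]
      congr 1
      rw [pow_succ]
      ring
    rw [Finset.sum_congr rfl (fun x _ => e1 x), pj_sum hN g,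
      Finset.sum_congr rfl (fun y _ => hg y), ← Finset.mul_sum, ← mul_assoc]
    have hone : (3 : ℝ) ^ (l - (N + 1)) * (3 ^ (N + 1) / 3 ^ l) = 1 := by
      rw [← mul_div_assoc, ← pow_add, Nat.sub_add_cancel hN]
      exact div_self h3l.ne'
    rw [hone, one_mul]
    exact h1
  -- the induction
  have key : ∀ d k : ℕ, k + d = l →
      ∑ x : ZMod (3 ^ l), |(cnt M {l} l x : ℝ) - 3 ^ k / 3 ^ l * (cnt M {l} k (pj k l x) : ℝ)|
        ≤ 2 * C * 2 ^ M / ((k : ℝ) + 1) ^ A * (1 / ((k : ℝ) + 1) - 1 / ((l : ℝ) + 1)) := by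
    intro d
    induction d with
    | zero =>
      intro k hk
      have hkl : k = l := by omega
      subst hkl
      have : ∀ x : ZMod (3 ^ k),
          |(cnt M {k} k x : ℝ) - 3 ^ k / 3 ^ k * (cnt M {k} k (pj k k x) : ℝ)| = 0 := by
        intro x
        rw [pj_self, div_self h3l.ne', one_mul, sub_self, abs_zero]
      rw [Finset.sum_congr rfl (fun x _ => this x)]
      simp
    | succ d ih =>
      intro k hk
      have hk1 : k + 1 ≤ l := by omega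
      have ih1 := ih (k + 1) (by omega)
      have st := step k hk1
      have tri : ∑ x : ZMod (3 ^ l),
          |(cnt M {l} l x : ℝ) - 3 ^ k / 3 ^ l * (cnt M {l} k (pj k l x) : ℝ)|
          ≤ ∑ x : ZMod (3 ^ l), |(cnt M {l} l x : ℝ)
              - 3 ^ (k + 1) / 3 ^ l * (cnt M {l} (k + 1) (pj (k + 1) l x) : ℝ)|
            + ∑ x : ZMod (3 ^ l), |3 ^ (k + 1) / 3 ^ l * (cnt M {l} (k + 1) (pj (k + 1) l x) : ℝ)
              - 3 ^ k / 3 ^ l * (cnt M {l} k (pj k l x) : ℝ)| := by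
        rw [← Finset.sum_add_distrib]
        exact Finset.sum_le_sum fun x _ => abs_sub_le _ _ _
      refine tri.trans ((add_le_add ih1 st).trans ?_)
      have hk0 : (0 : ℝ) < (k : ℝ) + 1 := by positivity
      have hkA : (0 : ℝ) < ((k : ℝ) + 1) ^ A := pow_pos hk0 A
      have hk2 : (0 : ℝ) < (k : ℝ) + 2 := by positivity
      have hcast : ((k + 1 : ℕ) : ℝ) + 1 = (k : ℝ) + 2 := by push_cast; ring
      rw [hcast]
      have hmono : ((k : ℝ) + 1) ^ A ≤ ((k : ℝ) + 2) ^ A :=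
        pow_le_pow_left₀ hk0.le (by linarith) A
      have hlk : (k : ℝ) + 2 ≤ (l : ℝ) + 1 := by
        have : ((k + 1 : ℕ) : ℝ) ≤ (l : ℝ) := by exact_mod_cast hk1
        push_cast at this
        linarith
      have hdiff : 0 ≤ 1 / ((k : ℝ) + 2) - 1 / ((l : ℝ) + 1) := by
        rw [sub_nonneg]
        exact one_div_le_one_div_of_le hk2 hlk
      have a1 : 2 * C * 2 ^ M / ((k : ℝ) + 2) ^ A * (1 / ((k : ℝ) + 2) - 1 / ((l : ℝ) + 1))
          ≤ 2 * C * 2 ^ M / ((k : ℝ) + 1) ^ A * (1 / ((k : ℝ) + 2) - 1 / ((l : ℝ) + 1)) := by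
        apply mul_le_mul_of_nonneg_right _ hdiff
        apply div_le_div_of_nonneg_left _ hkA hmono
        positivity
      have a2 : C / ((k : ℝ) + 1) ^ (A + 2) * 2 ^ M
          ≤ 2 * C * 2 ^ M / ((k : ℝ) + 1) ^ A * (1 / ((k : ℝ) + 1) - 1 / ((k : ℝ) + 2)) := by
        have e : C / ((k : ℝ) + 1) ^ (A + 2) * 2 ^ M
            = (C * 2 ^ M / ((k : ℝ) + 1) ^ A) * (1 / ((k : ℝ) + 1) ^ 2) := by
          rw [pow_add]
          field_simp
        have e' : 2 * C * 2 ^ M / ((k : ℝ) + 1) ^ A * (1 / ((k : ℝ) + 1) - 1 / ((k : ℝ) + 2))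
            = (C * 2 ^ M / ((k : ℝ) + 1) ^ A)
              * (2 * (1 / ((k : ℝ) + 1) - 1 / ((k : ℝ) + 2))) := by ring
        rw [e, e']
        apply mul_le_mul_of_nonneg_left _ (by positivity)
        rw [div_sub_div _ _ hk0.ne' hk2.ne', ← mul_div_assoc, div_le_div_iff₀ (by positivity)
          (by positivity)]
        have hkk : (0 : ℝ) ≤ (k : ℝ) := by positivity
        nlinarith [mul_nonneg hkk hkk]
      have e3 : 2 * C * 2 ^ M / ((k : ℝ) + 1) ^ A * (1 / ((k : ℝ) + 1) - 1 / ((l : ℝ) + 1))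
          = 2 * C * 2 ^ M / ((k : ℝ) + 1) ^ A * (1 / ((k : ℝ) + 2) - 1 / ((l : ℝ) + 1))
            + 2 * C * 2 ^ M / ((k : ℝ) + 1) ^ A * (1 / ((k : ℝ) + 1) - 1 / ((k : ℝ) + 2)) := by
        ring
      rw [e3]
      exact add_le_add a1 a2
  have hfin := key (l - m) m (by omega)
  refine hfin.trans ?_
  have hm0 : (0 : ℝ) < (m : ℝ) + 1 := by positivity
  have hl0 : (0 : ℝ) < (l : ℝ) + 1 := by positivity
  have hle1 : 1 / ((m : ℝ) + 1) - 1 / ((l : ℝ) + 1) ≤ 1 := by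
    have h1 : 1 / ((m : ℝ) + 1) ≤ 1 := by
      rw [div_le_one hm0]
      have : (0 : ℝ) ≤ (m : ℝ) := by positivity
      linarith
    have h2 : 0 < 1 / ((l : ℝ) + 1) := by positivity
    linarith
  have hq : 0 ≤ 2 * C * 2 ^ M / ((m : ℝ) + 1) ^ A := by positivity
  calc 2 * C * 2 ^ M / ((m : ℝ) + 1) ^ A * (1 / ((m : ℝ) + 1) - 1 / ((l : ℝ) + 1))
      ≤ 2 * C * 2 ^ M / ((m : ℝ) + 1) ^ A * 1 := mul_le_mul_of_nonneg_left hle1 hq
    _ = 2 * C / ((m : ℝ) + 1) ^ A * 2 ^ M := by ring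

end Pool.Agent.WIR.H86
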