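import Pool.Agent.Helper86_WIR.Pj

/-! # WIR, row WCF (the finite level densities are almost consistent). -/

namespace Pool.Agent.WIR.H86

open scoped BigOperators

theorem cnt_split (M N : ℕ) (z : ZMod (3 ^ N)) :
    cnt M (Set.Ici N) N z = cnt M (Set.Ici (N + 1)) N z + cnt M {N} N z := by
  classical
  unfold cnt
  rw [← Finset.card_union_of_disjoint]
  · congr 1
    ext O
    simp only [Finset.mem_union, Finset.mem_filter, Set.mem_Ici, Set.mem_singleton_iff]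
    constructor
    · rintro ⟨h1, h2, h3⟩
      rcases Nat.lt_or_ge N O.card with h | h
      · exact Or.inl ⟨h1, h, h3⟩
      · exact Or.inr ⟨h1, le_antisymm h h2, h3⟩
    · rintro (⟨h1, h2, h3⟩ | ⟨h1, h2, h3⟩)
      · exact ⟨h1, by omega, h3⟩
      · exact ⟨h1, h2.ge, h3⟩
  · rw [Finset.disjoint_left]
    intro O hO hO'
    simp only [Finset.mem_filter, Set.mem_Ici, Set.mem_singleton_iff] at hO hO'
    omega

theorem cnt_sum_single (M N : ℕ) :
    ∑ z : ZMod (3 ^ N), cnt M {N} N z = M.choose N := by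
  classical
  have h1 : ((Finset.Icc 1 M).powerset.filter (fun O => O.card = N)).card = M.choose N := by
    rw [← Finset.powersetCard_eq_filter, Finset.card_powersetCard]
    simp
  rw [← h1, Finset.card_eq_sum_card_fiberwise (t := Finset.univ) (f := fun O => FO N O)
    (fun x _ => Finset.mem_coe.mpr (Finset.mem_univ _))]
  refine Finset.sum_congr rfl fun z _ => ?_
  unfold cnt
  congr 1
  ext O
  simp only [Finset.mem_filter, Set.mem_singleton_iff]
  tauto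

theorem choose_bound (hoe : HoeStmt) (N : ℕ) :
    ((3 * (N + 1)).choose N : ℝ) ≤ 2 ^ (3 * (N + 1)) * Real.exp (-((N : ℝ) / 6)) := by
  have h := (hoe (3 * (N + 1)) ((N : ℝ) + 3) (by positivity) (by positivity)).2
  have hN0 : (0 : ℝ) ≤ (N : ℝ) := by positivity
  have hmem : N ∈ (Finset.range (3 * (N + 1) + 1)).filter
      (fun r : ℕ => (N : ℝ) + 3 ≤ ((3 * (N + 1) : ℕ) : ℝ) - 2 * r) := by
    rw [Finset.mem_filter, Finset.mem_range]
    refine ⟨by omega, ?_⟩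
    push_cast
    linarith
  have h1 : ((3 * (N + 1)).choose N : ℝ) ≤ ∑ r ∈ (Finset.range (3 * (N + 1) + 1)).filter
      (fun r : ℕ => (N : ℝ) + 3 ≤ ((3 * (N + 1) : ℕ) : ℝ) - 2 * r),
        ((3 * (N + 1)).choose r : ℝ) :=
    Finset.single_le_sum (f := fun r : ℕ => ((3 * (N + 1)).choose r : ℝ))
      (fun r _ => by positivity) hmem
  refine h1.trans (h.trans ?_)
  apply mul_le_mul_of_nonneg_left _ (by positivity)
  apply Real.exp_le_exp.mpr
  apply neg_le_neg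
  push_cast
  rw [div_le_div_iff₀ (by norm_num) (by positivity)]
  nlinarith

theorem pow_exp_bound (A N : ℕ) :
    Real.exp (-((N : ℝ) / 6)) ≤ 6 ^ A * (A.factorial : ℝ) * Real.exp (1 / 6) / ((N : ℝ) + 1) ^ A := by
  have hN1 : (0 : ℝ) < (N : ℝ) + 1 := by positivity
  have h := Real.pow_div_factorial_le_exp (((N : ℝ) + 1) / 6) (by positivity) A
  rw [le_div_iff₀ (by positivity)]
  have hf : (0 : ℝ) < (A.factorial : ℝ) := by exact_mod_cast A.factorial_pos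
  rw [div_pow, div_div, div_le_iff₀ (by positivity)] at h
  have he : Real.exp (((N : ℝ) + 1) / 6) = Real.exp ((N : ℝ) / 6) * Real.exp (1 / 6) := by
    rw [← Real.exp_add]
    congr 1
    ring
  have hpos := Real.exp_pos (-((N : ℝ) / 6))
  have hmul : Real.exp (-((N : ℝ) / 6)) * Real.exp ((N : ℝ) / 6) = 1 := by
    rw [← Real.exp_add, neg_add_cancel, Real.exp_zero]
  calc Real.exp (-((N : ℝ) / 6)) * ((N : ℝ) + 1) ^ A
      ≤ Real.exp (-((N : ℝ) / 6)) * (Real.exp (((N : ℝ) + 1) / 6) * (6 ^ A * (A.factorial : ℝ))) :=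
        mul_le_mul_of_nonneg_left h hpos.le
    _ = (Real.exp (-((N : ℝ) / 6)) * Real.exp ((N : ℝ) / 6))
          * (6 ^ A * (A.factorial : ℝ) * Real.exp (1 / 6)) := by rw [he]; ring
    _ = 6 ^ A * (A.factorial : ℝ) * Real.exp (1 / 6) := by rw [hmul, one_mul]

theorem wcf (hfr : HfrStmt) (wex : WexStmt) (hoe : HoeStmt) : WcfStmt := by
  intro A
  obtain ⟨C, hC1, hC⟩ := hfr A
  set D : ℝ := 6 ^ A * (A.factorial : ℝ) * Real.exp (1 / 6) with hD
  have hD0 : 0 ≤ D := by positivity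
  refine ⟨C + 2 * D, by linarith, ?_⟩
  intro N
  set M : ℕ := 3 * (N + 1) with hMdef
  have h2M : (0 : ℝ) < 2 ^ M := by positivity
  have h3N : (0 : ℝ) < 3 ^ N := by positivity
  -- (a)
  have ha : ∑ x : ZMod (3 ^ (N + 1)), |W (N + 1) x
      - 3 ^ N / 2 ^ M * (cnt M (Set.Ici (N + 1)) N (pj N (N + 1) x) : ℝ)|
      ≤ C / ((N : ℝ) + 1) ^ A * 3 ^ (N + 1) := by
    have h1 := hC N M (Set.Ici (N + 1)) (by omega) (fun k hk => hk)
    have e1 : ∀ x : ZMod (3 ^ (N + 1)), |W (N + 1) x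
        - 3 ^ N / 2 ^ M * (cnt M (Set.Ici (N + 1)) N (pj N (N + 1) x) : ℝ)|
        = 3 ^ (N + 1) / 2 ^ M * |(cnt M (Set.Ici (N + 1)) (N + 1) x : ℝ)
            - (cnt M (Set.Ici (N + 1)) N (pj N (N + 1) x) : ℝ) / 3| := by
      intro x
      have hpos : (0 : ℝ) < 3 ^ (N + 1) / 2 ^ M := by positivity
      unfold W
      rw [← hMdef]
      conv_rhs => rw [← abs_of_pos hpos, ← abs_mul]
      congr 1
      rw [pow_succ]
      ring
    rw [Finset.sum_congr rfl (fun x _ => e1 x), ← Finset.mul_sum]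
    calc 3 ^ (N + 1) / 2 ^ M * ∑ x : ZMod (3 ^ (N + 1)),
          |(cnt M (Set.Ici (N + 1)) (N + 1) x : ℝ)
            - (cnt M (Set.Ici (N + 1)) N (pj N (N + 1) x) : ℝ) / 3|
        ≤ 3 ^ (N + 1) / 2 ^ M * (C / ((N : ℝ) + 1) ^ A * 2 ^ M) :=
          mul_le_mul_of_nonneg_left h1 (by positivity)
      _ = C / ((N : ℝ) + 1) ^ A * 3 ^ (N + 1) := by field_simp
  -- (b), (c)
  have hb : ∑ z : ZMod (3 ^ N), |3 ^ N / 2 ^ M * (cnt M (Set.Ici (N + 1)) N z : ℝ) - W N z|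
      ≤ 2 * 3 ^ N * Real.exp (-((N : ℝ) / 6)) := by
    obtain ⟨w1, w2⟩ := wex N (3 * N) M (le_refl _) (by omega)
    have hMN : M - 3 * N = 3 := by omega
    rw [hMN] at w1 w2
    have hsplit : ∀ z : ZMod (3 ^ N), (cnt M (Set.Ici N) N z : ℝ)
        = (cnt M (Set.Ici (N + 1)) N z : ℝ) + (cnt M {N} N z : ℝ) := by
      intro z
      exact_mod_cast cnt_split M N z
    have hw1 : ∀ z : ZMod (3 ^ N), 2 ^ 3 * (cnt (3 * N) (Set.Ici N) N z : ℝ)
        ≤ (cnt M (Set.Ici N) N z : ℝ) := by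
      intro z
      exact_mod_cast w1 z
    have hWN : ∀ z : ZMod (3 ^ N), W N z
        = 3 ^ N / 2 ^ M * (2 ^ 3 * (cnt (3 * N) (Set.Ici N) N z : ℝ)) := by
      intro z
      unfold W
      have : (2 : ℝ) ^ M = 2 ^ (3 * N) * 2 ^ 3 := by
        rw [← pow_add]
        congr 1
      rw [this]
      field_simp
    have hpt : ∀ z : ZMod (3 ^ N), |3 ^ N / 2 ^ M * (cnt M (Set.Ici (N + 1)) N z : ℝ) - W N z|
        ≤ 3 ^ N / 2 ^ M * ((cnt M {N} N z : ℝ)
          + ((cnt M (Set.Ici N) N z : ℝ) - 2 ^ 3 * (cnt (3 * N) (Set.Ici N) N z : ℝ))) := by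
      intro z
      have hpos : (0 : ℝ) < 3 ^ N / 2 ^ M := by positivity
      rw [hWN z, ← mul_sub, abs_mul, abs_of_pos hpos]
      apply mul_le_mul_of_nonneg_left _ hpos.le
      have h1 := hsplit z
      have h2 := hw1 z
      have h3 : (0 : ℝ) ≤ (cnt M {N} N z : ℝ) := by positivity
      rw [abs_le]
      constructor <;> linarith
    calc ∑ z : ZMod (3 ^ N), |3 ^ N / 2 ^ M * (cnt M (Set.Ici (N + 1)) N z : ℝ) - W N z|
        ≤ ∑ z : ZMod (3 ^ N), 3 ^ N / 2 ^ M * ((cnt M {N} N z : ℝ)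
          + ((cnt M (Set.Ici N) N z : ℝ) - 2 ^ 3 * (cnt (3 * N) (Set.Ici N) N z : ℝ))) :=
          Finset.sum_le_sum fun z _ => hpt z
      _ = 3 ^ N / 2 ^ M * ((∑ z : ZMod (3 ^ N), (cnt M {N} N z : ℝ))
          + ((∑ z : ZMod (3 ^ N), (cnt M (Set.Ici N) N z : ℝ))
            - 2 ^ 3 * ∑ z : ZMod (3 ^ N), (cnt (3 * N) (Set.Ici N) N z : ℝ))) := by
          rw [← Finset.mul_sum, Finset.sum_add_distrib, Finset.sum_sub_distrib, ← Finset.mul_sum]
      _ ≤ 3 ^ N / 2 ^ M * (2 ^ M * Real.exp (-((N : ℝ) / 6))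
            + 2 ^ M * Real.exp (-((N : ℝ) / 6))) := by
          apply mul_le_mul_of_nonneg_left _ (by positivity)
          apply add_le_add _ w2
          have h4 : (∑ z : ZMod (3 ^ N), (cnt M {N} N z : ℝ)) = (M.choose N : ℝ) := by
            exact_mod_cast cnt_sum_single M N
          rw [h4]
          exact choose_bound hoe N
      _ = 2 * 3 ^ N * Real.exp (-((N : ℝ) / 6)) := by field_simp; ring
  -- (d)
  have hd : ∑ x : ZMod (3 ^ (N + 1)), |3 ^ N / 2 ^ M *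
      (cnt M (Set.Ici (N + 1)) N (pj N (N + 1) x) : ℝ) - W N (pj N (N + 1) x)|
      ≤ 2 * D / ((N : ℝ) + 1) ^ A * 3 ^ (N + 1) := by
    obtain ⟨g, hg⟩ : ∃ g : ZMod (3 ^ N) → ℝ, ∀ z, g z =
      |3 ^ N / 2 ^ M * (cnt M (Set.Ici (N + 1)) N z : ℝ) - W N z| := ⟨_, fun _ => rfl⟩
    have e1 : ∀ x : ZMod (3 ^ (N + 1)), |3 ^ N / 2 ^ M *
      (cnt M (Set.Ici (N + 1)) N (pj N (N + 1) x) : ℝ) - W N (pj N (N + 1) x)|
      = g (pj N (N + 1) x) := fun x => (hg _).symm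
    rw [Finset.sum_congr rfl (fun x _ => e1 x), pj_sum (Nat.le_succ N) g,
      Finset.sum_congr rfl (fun z _ => hg z)]
    have h31 : N + 1 - N = 1 := by omega
    have hexp := pow_exp_bound A N
    calc (3 : ℝ) ^ (N.succ - N) * ∑ z : ZMod (3 ^ N),
          |3 ^ N / 2 ^ M * (cnt M (Set.Ici (N + 1)) N z : ℝ) - W N z|
        ≤ (3 : ℝ) ^ (N.succ - N) * (2 * 3 ^ N * Real.exp (-((N : ℝ) / 6))) :=
          mul_le_mul_of_nonneg_left hb (by positivity)
      _ = 2 * 3 ^ (N + 1) * Real.exp (-((N : ℝ) / 6)) := by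
          rw [Nat.succ_eq_add_one, h31, pow_succ]; ring
      _ ≤ 2 * 3 ^ (N + 1) * (D / ((N : ℝ) + 1) ^ A) :=
          mul_le_mul_of_nonneg_left hexp (by positivity)
      _ = 2 * D / ((N : ℝ) + 1) ^ A * 3 ^ (N + 1) := by ring
  calc ∑ x : ZMod (3 ^ (N + 1)), |W (N + 1) x - W N (pj N (N + 1) x)|
      ≤ ∑ x : ZMod (3 ^ (N + 1)), (|W (N + 1) x
          - 3 ^ N / 2 ^ M * (cnt M (Set.Ici (N + 1)) N (pj N (N + 1) x) : ℝ)|
        + |3 ^ N / 2 ^ M * (cnt M (Set.Ici (N + 1)) N (pj N (N + 1) x) : ℝ)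
          - W N (pj N (N + 1) x)|) := Finset.sum_le_sum fun x _ => abs_sub_le _ _ _
    _ = _ := Finset.sum_add_distrib
    _ ≤ C / ((N : ℝ) + 1) ^ A * 3 ^ (N + 1) + 2 * D / ((N : ℝ) + 1) ^ A * 3 ^ (N + 1) :=
        add_le_add ha hd
    _ = (C + 2 * D) / ((N : ℝ) + 1) ^ A * 3 ^ (N + 1) := by ring

end Pool.Agent.WIR.H86
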